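import Mathlib
import Pool.Agent.H774R4.Fin
import Pool.Agent.Helper292.ForceCH

set_option autoImplicit false

/-!
# MP_181197_gt: the implication is not a theorem of ZFC

(A) Some notion of forcing forces the continuum hypothesis without collapsing `ω₁`.
(B) CH implies that there is a Tychonoff space `X` such that `C_p(X)` is perfectly normal and
`C_p(X) × C_p(X)` is not. Together (A) and (B) give the consistency with ZFC of the negation of the
statement of the problem.
-/

open Set Topology Cardinal

namespace Pool.Agent.Results.MP_181197_gt.ConsistentlyNot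

open Pool.Agent.Helper292.ForceCH (OmegaOnePreserved CHHolds)

/-- The statement of the problem: if `C_p(X)` is perfectly normal, then so is its square. -/
def Statement : Prop :=
  ∀ (X : Type) [TopologicalSpace X] [T35Space X],
    (NormalSpace {f : X → ℝ // Continuous f} ∧
      ∀ s : Set {f : X → ℝ // Continuous f}, IsClosed s → IsGδ s) →
    (NormalSpace ({f : X → ℝ // Continuous f} × {f : X → ℝ // Continuous f}) ∧
      ∀ s : Set ({f : X → ℝ // Continuous f} × {f : X → ℝ // Continuous f}),
        IsClosed s → IsGδ s)

/-- (A) There is a notion of forcing all of whose conditions force that `ω₁` is preserved and that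
the continuum hypothesis holds. (B) The continuum hypothesis implies that the statement of the
problem is false. -/
theorem result :
    (∃ (P : Type) (_ : Preorder P), Nonempty P ∧
      ∀ p : P, p ∈ OmegaOnePreserved P ∧ p ∈ CHHolds P) ∧
    (Cardinal.aleph.{0} 1 = Cardinal.continuum → ¬ Statement) := by
  refine ⟨?_, fun hCH hS => ?_⟩
  · obtain ⟨P, hP, hne, h⟩ := Pool.Agent.Helper292.ForceCH.exists_forcing
    exact ⟨P, hP, hne, fun p => ⟨(h p).1, (h p).2.2⟩⟩
  · obtain ⟨X, t, h1, h2, h3, -⟩ := Pool.Agent.H774R4.main hCH.symm
    exact h3 (hS X h2.2)

end Pool.Agent.Results.MP_181197_gt.ConsistentlyNot
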